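import Pool.Agent.TInd.Basic

set_option autoImplicit false

namespace Pool.Agent.TInd

open Finset

/-- Independent triples of `ℤ/n` and lattices. -/
lemma triple_iff {n t : ℕ} (hn : 1 ≤ n) (ht : 2 ≤ t) :
    (∃ A : Finset (ZMod n), A.card = 3 ∧ IsIndep t A) ↔
    ∃ c : Fin 3 → ℤ, ∀ y : Fin 3 → ℤ, y ≠ 0 → (n : ℤ) ∣ ∑ i, c i * y i →
      (t : ℤ) < ∑ i, |y i| := by
  classical
  have : NeZero n := ⟨by omega⟩
  constructor
  · rintro ⟨A, hA, hi⟩
    obtain ⟨a, b, c, hab, hac, hbc, rfl⟩ := Finset.card_eq_three.1 hA
    refine ⟨![(a.val : ℤ), (b.val : ℤ), (c.val : ℤ)], ?_⟩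
    intro y hy hd
    by_contra hlt
    push Not at hlt
    apply hy
    have hz : (y 0 : ZMod n) * a + (y 1 : ZMod n) * b + (y 2 : ZMod n) * c = 0 := by
      rw [← CharP.intCast_eq_zero_iff (ZMod n) n] at hd
      simp only [Fin.sum_univ_three, Matrix.cons_val_zero, Matrix.cons_val_one,
        Matrix.cons_val] at hd
      push_cast at hd
      simp only [ZMod.natCast_val, ZMod.cast_id', id_eq] at hd
      linear_combination hd
    have key := hi (fun g => if g = a then y 0 else if g = b then y 1 else y 2)
      (by
        rw [Finset.sum_insert (by simp [hab, hac]), Finset.sum_pair hbc]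
        rw [if_pos rfl, if_neg (Ne.symm hab), if_pos rfl, if_neg (Ne.symm hac),
          if_neg (Ne.symm hbc)]
        rw [Fin.sum_univ_three] at hlt
        linarith)
      (by
        rw [Finset.sum_insert (by simp [hab, hac]), Finset.sum_pair hbc]
        rw [if_pos rfl, if_neg (Ne.symm hab), if_pos rfl, if_neg (Ne.symm hac),
          if_neg (Ne.symm hbc)]
        simp only [zsmul_eq_mul]
        linear_combination hz)
    have k0 := key a (by simp)
    have k1 := key b (by simp)
    have k2 := key c (by simp)
    rw [if_pos rfl] at k0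
    rw [if_neg (Ne.symm hab), if_pos rfl] at k1
    rw [if_neg (Ne.symm hac), if_neg (Ne.symm hbc)] at k2
    funext i
    fin_cases i <;> simp [k0, k1, k2]
  · rintro ⟨c, hc⟩
    have hne : ∀ i j : Fin 3, i ≠ j → ((c i : ℤ) : ZMod n) ≠ ((c j : ℤ) : ZMod n) := by
      intro i j hij h
      have h1 := hc (fun k => if k = i then 1 else if k = j then -1 else 0)
        (by
          intro h0
          have := congrFun h0 i
          simp at this)
        (by
          rw [← CharP.intCast_eq_zero_iff (ZMod n) n]
          push_cast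
          rw [Finset.sum_eq_add i j hij]
          · rw [if_pos rfl, if_neg (Ne.symm hij), if_pos rfl]
            rw [h]; ring
          · intro k _ hk
            rw [if_neg hk.1, if_neg hk.2]; ring
          · intro h; simp at h
          · intro h; simp at h)
      have h2 : ∑ k : Fin 3, |(if k = i then (1 : ℤ) else if k = j then -1 else 0)| = 2 := by
        revert hij
        fin_cases i <;> fin_cases j <;> simp [Fin.sum_univ_three]
      rw [h2] at h1
      have : (2 : ℤ) ≤ t := by exact_mod_cast ht
      linarith
    have h01 := hne 0 1 (by decide)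
    have h02 := hne 0 2 (by decide)
    have h12 := hne 1 2 (by decide)
    refine ⟨{((c 0 : ℤ) : ZMod n), ((c 1 : ℤ) : ZMod n), ((c 2 : ℤ) : ZMod n)},
      Finset.card_eq_three.2 ⟨_, _, _, h01, h02, h12, rfl⟩, ?_⟩
    intro l hl hs
    rw [Finset.sum_insert (by simp [h01, h02]), Finset.sum_pair h12] at hl hs
    simp only [zsmul_eq_mul] at hs
    set y : Fin 3 → ℤ := ![l (c 0 : ℤ), l (c 1 : ℤ), l (c 2 : ℤ)] with hy
    have hy0 : y = 0 := by
      by_contra h0
      have := hc y h0 (by
        rw [← CharP.intCast_eq_zero_iff (ZMod n) n]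
        simp only [Fin.sum_univ_three, hy, Matrix.cons_val_zero, Matrix.cons_val_one,
          Matrix.cons_val]
        push_cast
        linear_combination hs)
      simp only [Fin.sum_univ_three, hy, Matrix.cons_val_zero, Matrix.cons_val_one,
          Matrix.cons_val] at this
      linarith
    have e0 := congrFun hy0 0
    have e1 := congrFun hy0 1
    have e2 := congrFun hy0 2
    simp only [hy, Matrix.cons_val_zero, Matrix.cons_val_one, Matrix.cons_val,
      Pi.zero_apply] at e0 e1 e2
    intro a ha
    simp only [Finset.mem_insert, Finset.mem_singleton] at ha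
    rcases ha with rfl | rfl | rfl
    · exact e0
    · exact e1
    · exact e2

end Pool.Agent.TInd
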