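import Pool.Agent.TInd.CritLow
import Pool.Agent.TInd.Triple
import Pool.Agent.CycLat.Lower
import Pool.Agent.CycApx.MainA

/-! The set `N_t` (t even) and the critical determinant of the octahedron. -/

set_option autoImplicit false

namespace Pool.Agent.TInd

open Finset Matrix CycLat

/-- The critical determinant of the octahedron `|x| + |y| + |z| < 1`: the infimum of `|det M|` over
the nonsingular real `3 × 3` matrices `M` such that no nonzero integer combination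
`z₀ M₀ + z₁ M₁ + z₂ M₂` of the rows of `M` lies in that octahedron. -/
noncomputable def octDet : ℝ :=
  sInf {x : ℝ | ∃ M : Matrix (Fin 3) (Fin 3) ℝ, M.det ≠ 0 ∧
    (∀ z : Fin 3 → ℤ, z ≠ 0 → 1 ≤ ∑ j, |∑ i, (z i : ℝ) * M i j|) ∧ x = |M.det|}

lemma octDet_eq : octDet = CycLat.crit (l1 : (Fin 3 → ℝ) → ℝ) := rfl

lemma adm_transpose {M : Matrix (Fin 3) (Fin 3) ℝ} :
    Admissible Mᵀ ↔ ∀ z : Fin 3 → ℤ, z ≠ 0 → 1 ≤ ∑ j, |∑ i, (z i : ℝ) * M i j| := by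
  unfold Admissible
  simp only [Matrix.transpose_apply, mul_comm]

lemma octDet_le : octDet ≤ 19 / 108 := by
  have h := T0_adm
  rw [← Matrix.transpose_transpose T0, adm_transpose] at h
  have hd : (T0ᵀ).det = 19 / 108 := by rw [Matrix.det_transpose, T0_det]
  unfold octDet
  refine csInf_le ⟨0, ?_⟩ ⟨T0ᵀ, by rw [hd]; norm_num, h, by rw [hd]; norm_num⟩
  rintro x ⟨M, -, -, rfl⟩
  exact abs_nonneg _

lemma le_octDet : 1 / 6 ≤ octDet := by
  unfold octDet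
  refine le_csInf ?_ ?_
  · have h := T0_adm
    rw [← Matrix.transpose_transpose T0, adm_transpose] at h
    have hd : (T0ᵀ).det = 19 / 108 := by rw [Matrix.det_transpose, T0_det]
    exact ⟨_, T0ᵀ, by rw [hd]; norm_num, h, rfl⟩
  · rintro x ⟨M, hM, hadm, rfl⟩
    rw [← Matrix.det_transpose]
    exact sixth_le (by rwa [Matrix.det_transpose]) (adm_transpose.2 hadm)

/-- independent triple = admissible cyclic lattice -/
lemma triple_iff_adm {n t : ℕ} (hn : 1 ≤ n) (ht : 2 ≤ t) :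
    (∃ A : Finset (ZMod n), A.card = 3 ∧ IsIndep t A) ↔
    ∃ b : Fin 3 → ℤ, Adm (l1 : (Fin 3 → ℝ) → ℝ) n b ((t : ℝ) + 1) := by
  rw [triple_iff hn ht]
  have key : ∀ w : Fin 3 → ℤ, ((t : ℝ) + 1 ≤ l1 (toR w)) ↔ (t : ℤ) < ∑ i, |w i| := by
    intro w
    have h1 : l1 (toR w) = ((∑ i, |w i| : ℤ) : ℝ) := by
      unfold l1 toR
      push_cast
      rfl
    rw [h1]
    constructor
    · intro h
      have : ((t + 1 : ℤ) : ℝ) ≤ ((∑ i, |w i| : ℤ) : ℝ) := by push_cast; push_cast at h; exact h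
      have := Int.cast_le.1 this
      omega
    · intro h
      have h2 : (t : ℤ) + 1 ≤ ∑ i, |w i| := by omega
      exact_mod_cast h2
  constructor
  · rintro ⟨c, hc⟩
    refine ⟨c, fun w hw hd => (key w).2 (hc w hw ?_)⟩
    simpa only [mul_comm] using hd
  · rintro ⟨b, hb⟩
    refine ⟨b, fun w hw hd => (key w).1 (hb w hw ?_)⟩
    simpa only [mul_comm] using hd

/-- no independent triple below `octDet * (t+1)^3` -/
lemma no_triple {n t : ℕ} (hn : 1 ≤ n) (ht : 2 ≤ t)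
    (h : (n : ℝ) < octDet * ((t : ℝ) + 1) ^ 3) : ¬ ∃ A : Finset (ZMod n), A.card = 3 ∧ IsIndep t A := by
  rw [triple_iff_adm hn ht]
  rintro ⟨b, hb⟩
  have h1 := CycLat.lower isNorm_l1 n hn b ((t : ℝ) + 1) (by positivity) hb
  rw [← octDet_eq] at h1
  linarith

lemma mem_N_low {t n : ℕ} (ht : 2 ≤ t) (hev : Even t) (h1 : t ^ 2 / 2 + t + 1 ≤ n)
    (h2 : (n : ℝ) < octDet * ((t : ℝ) + 1) ^ 3) : n ∈ N t := by
  obtain ⟨k, rfl⟩ := hev
  have hk : 1 ≤ k := by omega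
  have e : (k + k) ^ 2 / 2 = 2 * k ^ 2 := by
    rw [show (k + k) ^ 2 = 2 * (2 * k ^ 2) by ring]
    exact Nat.mul_div_cancel_left _ (by norm_num)
  rw [e] at h1
  rw [mem_N_iff]
  refine ⟨by omega, ?_, no_triple (by omega) ht h2⟩
  have := pair_indep (n := n) hk (by omega)
  rwa [two_mul] at this

lemma N_ge {t n : ℕ} (ht : 2 ≤ t) (hev : Even t) (hn : n ∈ N t) : t ^ 2 / 2 + t + 1 ≤ n := by
  obtain ⟨k, rfl⟩ := hev
  have e : (k + k) ^ 2 / 2 = 2 * k ^ 2 := by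
    rw [show (k + k) ^ 2 = 2 * (2 * k ^ 2) by ring]
    exact Nat.mul_div_cancel_left _ (by norm_num)
  rw [e]
  rw [mem_N_iff] at hn
  obtain ⟨hn1, ⟨A, hA, hi⟩, -⟩ := hn
  rw [← two_mul] at hi
  have := card_ge_of_pair hn1 hA hi
  omega

lemma N_le (ε : ℝ) (hε : 0 < ε) : ∃ t₀ : ℕ, ∀ t : ℕ, t₀ ≤ t → ∀ n ∈ N t,
    (n : ℝ) ≤ (octDet + ε) * (t : ℝ) ^ 3 := by
  obtain ⟨n₀, hn₀⟩ := Pool.Agent.CycApx.main_apx (e := 1) (F := (l1 : (Fin 3 → ℝ) → ℝ))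
    isNorm_l1 (ε / 2) (by positivity)
  have hκ0 : 1 / 6 ≤ octDet := le_octDet
  have hκ1 : octDet ≤ 19 / 108 := octDet_le
  -- choose t₀
  obtain ⟨t₁, ht₁⟩ := exists_nat_ge ((7 * (octDet + ε / 2)) / (ε / 2) + 2 + n₀ / ε)
  refine ⟨t₁, fun t ht n hn => ?_⟩
  by_contra hlt
  push Not at hlt
  have htR : ((7 * (octDet + ε / 2)) / (ε / 2) + 2 + n₀ / ε : ℝ) ≤ t :=
    ht₁.trans (by exact_mod_cast ht)
  have hA : 0 ≤ (7 * (octDet + ε / 2)) / (ε / 2) := by positivity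
  have hB : 0 ≤ (n₀ : ℝ) / ε := by positivity
  have ht2 : (2 : ℝ) ≤ t := by linarith
  have htn : (2 : ℕ) ≤ t := by exact_mod_cast ht2
  have h7 : 7 * (octDet + ε / 2) ≤ (ε / 2) * t := by
    have : (7 * (octDet + ε / 2)) / (ε / 2) ≤ t := by linarith
    rwa [div_le_iff₀ (by positivity), mul_comm (t : ℝ)] at this
  have hnn : (n₀ : ℝ) ≤ ε * t := by
    have : (n₀ : ℝ) / ε ≤ t := by linarith
    rwa [div_le_iff₀ hε, mul_comm (t : ℝ)] at this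
  have ht3 : (t : ℝ) ≤ (t : ℝ) ^ 3 := by nlinarith [sq_nonneg ((t : ℝ) - 1)]
  have hn1 : n₀ ≤ n := by
    have : (n₀ : ℝ) ≤ n := by
      have h1 : ε * (t : ℝ) ≤ ε * (t : ℝ) ^ 3 := mul_le_mul_of_nonneg_left ht3 hε.le
      have h2 : 0 ≤ octDet * (t : ℝ) ^ 3 := by positivity
      nlinarith
    exact_mod_cast this
  obtain ⟨b, hb⟩ := hn₀ n hn1
  rw [mem_N_iff] at hn
  apply hn.2.2
  rw [triple_iff_adm hn.1 htn]
  refine ⟨b, hb ((t : ℝ) + 1) (by positivity) ?_⟩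
  rw [← octDet_eq]
  show (octDet + ε / 2) * ((t : ℝ) + 1) ^ 3 ≤ n
  have h8 : ((t : ℝ) + 1) ^ 3 ≤ (t : ℝ) ^ 3 + 7 * (t : ℝ) ^ 2 := by nlinarith
  have h9 : (octDet + ε / 2) * ((t : ℝ) + 1) ^ 3 ≤
      (octDet + ε / 2) * ((t : ℝ) ^ 3 + 7 * (t : ℝ) ^ 2) :=
    mul_le_mul_of_nonneg_left h8 (by positivity)
  have h10 : (7 * (octDet + ε / 2)) * (t : ℝ) ^ 2 ≤ ((ε / 2) * t) * (t : ℝ) ^ 2 :=
    mul_le_mul_of_nonneg_right h7 (by positivity)
  nlinarith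

end Pool.Agent.TInd
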