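import Pool.Agent.TInd.Asym
import Pool.Agent.CycLat.OctaB

/-! The upper end of `N_t` with error term `O(t^(5/2))`. -/

set_option autoImplicit false

namespace Pool.Agent.TInd

open Finset

lemma N_le_sharp : ∃ C : ℝ, 0 < C ∧ ∀ t : ℕ, 2 ≤ t → ∀ n ∈ N t,
    (n : ℝ) ≤ 19 / 108 * (t : ℝ) ^ 3 + C * (t : ℝ) ^ ((5 : ℝ) / 2) := by
  obtain ⟨C, hC, h⟩ := CycLat.octa_upper
  refine ⟨C, hC, fun t ht n hn => ?_⟩
  by_contra hlt
  push Not at hlt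
  have ht1 : (1 : ℝ) ≤ t := by exact_mod_cast (by omega : 1 ≤ t)
  obtain ⟨b, hb⟩ := h t ht1 n hlt.le
  rw [mem_N_iff] at hn
  apply hn.2.2
  rw [triple_iff hn.1 ht]
  refine ⟨b, fun y hy hd => ?_⟩
  have h1 := hb y hy (by simpa only [mul_comm] using hd)
  have h2 : ((t : ℤ) : ℝ) < ((∑ i, |y i| : ℤ) : ℝ) := by
    push_cast
    exact h1
  exact_mod_cast h2

end Pool.Agent.TInd
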