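import Pool.Agent.TInd.Defs

set_option autoImplicit false

namespace Pool.Agent.TInd

open Finset

lemma IsIndep.mono {G : Type} [AddCommGroup G] {t : ℕ} {A B : Finset G} (h : IsIndep t A)
    (hBA : B ⊆ A) : IsIndep t B := by
  classical
  intro l hl hs b hb
  set l' : G → ℤ := fun a => if a ∈ B then l a else 0 with hl'
  have h1 : ∑ a ∈ A, |l' a| = ∑ a ∈ B, |l a| := by
    rw [← Finset.sum_subset hBA]
    · exact Finset.sum_congr rfl fun a ha => by simp [hl', ha]
    · intro a _ ha; simp [hl', ha]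
  have h2 : ∑ a ∈ A, l' a • a = ∑ a ∈ B, l a • a := by
    rw [← Finset.sum_subset hBA]
    · exact Finset.sum_congr rfl fun a ha => by simp [hl', ha]
    · intro a _ ha; simp [hl', ha]
  have := h l' (by rw [h1]; exact hl) (by rw [h2]; exact hs) b (hBA hb)
  simpa [hl', hb] using this

lemma isIndep_empty {G : Type} [AddCommGroup G] (t : ℕ) : IsIndep t (∅ : Finset G) := by
  intro l _ _ a ha; simp at ha

lemma bdd (n t : ℕ) (hn : 1 ≤ n) :
    BddAbove {m : ℕ | ∃ A : Finset (ZMod n), A.card = m ∧ IsIndep t A} := by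
  haveI : NeZero n := ⟨by omega⟩
  refine ⟨n, ?_⟩
  rintro m ⟨A, rfl, -⟩
  have := Finset.card_le_univ A
  rwa [ZMod.card] at this

/-- `tau n t = 2` iff there is an independent pair and no independent triple. -/
lemma mem_N_iff {n t : ℕ} : n ∈ N t ↔ 1 ≤ n ∧ (∃ A : Finset (ZMod n), A.card = 2 ∧ IsIndep t A) ∧
    ¬ ∃ A : Finset (ZMod n), A.card = 3 ∧ IsIndep t A := by
  constructor
  · rintro ⟨hn, h⟩
    refine ⟨hn, ?_, ?_⟩
    · have hne : {m : ℕ | ∃ A : Finset (ZMod n), A.card = m ∧ IsIndep t A}.Nonempty :=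
        ⟨0, ∅, rfl, isIndep_empty t⟩
      have := Nat.sSup_mem hne (bdd n t hn)
      rw [show sSup {m : ℕ | ∃ A : Finset (ZMod n), A.card = m ∧ IsIndep t A} = 2 from h] at this
      exact this
    · rintro ⟨A, hA, hi⟩
      have := le_csSup (bdd n t hn) (show 3 ∈ _ from ⟨A, hA, hi⟩)
      rw [show sSup {m : ℕ | ∃ A : Finset (ZMod n), A.card = m ∧ IsIndep t A} = 2 from h] at this
      omega
  · rintro ⟨hn, ⟨A, hA, hi⟩, h3⟩
    refine ⟨hn, le_antisymm ?_ ?_⟩
    · refine csSup_le' ?_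
      rintro m ⟨B, rfl, hB⟩
      by_contra hlt
      push Not at hlt
      obtain ⟨C, hC, hcard⟩ := Finset.exists_subset_card_eq (show 3 ≤ B.card from hlt)
      exact h3 ⟨C, hcard, hB.mono hC⟩
    · exact le_csSup (bdd n t hn) ⟨A, hA, hi⟩

/-- The pair `{k, k+1}` is `2k`-independent modulo every `n ≥ 2k² + 2k + 1`. -/
lemma pair_indep {n k : ℕ} (hk : 1 ≤ k) (hn : 2 * k ^ 2 + 2 * k + 1 ≤ n) :
    ∃ A : Finset (ZMod n), A.card = 2 ∧ IsIndep (2 * k) A := by
  classical
  have hkk : k + 1 < n := by nlinarith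
  haveI : NeZero n := ⟨by omega⟩
  have hne : ((k : ℕ) : ZMod n) ≠ ((k + 1 : ℕ) : ZMod n) := by
    intro h
    rw [ZMod.natCast_eq_natCast_iff'] at h
    rw [Nat.mod_eq_of_lt (by omega), Nat.mod_eq_of_lt hkk] at h
    omega
  refine ⟨{(k : ZMod n), ((k + 1 : ℕ) : ZMod n)}, Finset.card_pair hne, ?_⟩
  intro l hl hs
  rw [Finset.sum_pair hne] at hl hs
  set x := l (k : ZMod n) with hx
  set y := l ((k + 1 : ℕ) : ZMod n) with hy
  have hdvd : (n : ℤ) ∣ x * k + y * (k + 1) := by
    rw [← CharP.intCast_eq_zero_iff (ZMod n) n]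
    push_cast
    have := hs
    simp only [zsmul_eq_mul] at this
    push_cast at this
    exact this
  have hl' : |x| + |y| ≤ 2 * (k : ℤ) := by push_cast at hl; exact hl
  have hkZ : (1 : ℤ) ≤ k := by exact_mod_cast hk
  have hnZ : 2 * (k : ℤ) ^ 2 + 2 * k + 1 ≤ n := by exact_mod_cast hn
  have habs : |x * k + y * (k + 1)| ≤ 2 * (k : ℤ) * (k + 1) := by
    calc |x * k + y * (k + 1)| ≤ |x * k| + |y * (k + 1)| := abs_add_le _ _
      _ = |x| * k + |y| * (k + 1) := by
          rw [abs_mul, abs_mul, abs_of_nonneg (show (0 : ℤ) ≤ k by positivity),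
            abs_of_nonneg (show (0 : ℤ) ≤ (k : ℤ) + 1 by positivity)]
      _ ≤ |x| * (k + 1) + |y| * (k + 1) := by
          have := abs_nonneg x
          nlinarith
      _ = (|x| + |y|) * (k + 1) := by ring
      _ ≤ 2 * (k : ℤ) * (k + 1) := by
          apply mul_le_mul_of_nonneg_right hl' (by positivity)
  have hzero : x * k + y * (k + 1) = 0 := by
    apply Int.eq_zero_of_abs_lt_dvd hdvd
    calc |x * k + y * (k + 1)| ≤ 2 * (k : ℤ) * (k + 1) := habs
      _ < n := by nlinarith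
  -- `x = (k+1) s`, `y = - k s`
  have hcop : IsCoprime ((k : ℤ) + 1) (k : ℤ) := ⟨1, -1, by ring⟩
  have hdx : ((k : ℤ) + 1) ∣ x := by
    apply hcop.dvd_of_dvd_mul_right
    exact ⟨-y, by linarith⟩
  obtain ⟨s, hs'⟩ := hdx
  have hy' : y = - (k * s) := by
    have : ((k : ℤ) + 1) * (y + k * s) = 0 := by rw [hs'] at hzero; linarith
    rcases mul_eq_zero.1 this with h | h
    · omega
    · linarith
  have hs0 : s = 0 := by
    by_contra hne0
    have h1 : (1 : ℤ) ≤ |s| := Int.one_le_abs hne0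
    have hx2 : |x| = (k + 1) * |s| := by
      rw [hs', abs_mul, abs_of_nonneg (show (0 : ℤ) ≤ (k : ℤ) + 1 by positivity)]
    have hy2 : |y| = k * |s| := by
      rw [hy', abs_neg, abs_mul, abs_of_nonneg (show (0 : ℤ) ≤ (k : ℤ) by positivity)]
    rw [hx2, hy2] at hl'
    nlinarith
  intro a ha
  rcases Finset.mem_insert.1 ha with rfl | ha
  · rw [← hx, hs', hs0]; ring
  · rw [Finset.mem_singleton] at ha
    subst ha
    rw [← hy, hy', hs0]; ring

/-- The number of integer points `(x, y)` with `|x| + |y| ≤ k`. -/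
lemma card_diamond (k : ℕ) :
    ((Finset.Icc (-(k : ℤ)) k).sigma fun x => Finset.Icc (-((k : ℤ) - |x|)) ((k : ℤ) - |x|)).card
      = 2 * k ^ 2 + 2 * k + 1 := by
  rw [Finset.card_sigma]
  have h1 : ∀ x ∈ Finset.Icc (-(k : ℤ)) k,
      (Finset.Icc (-((k : ℤ) - |x|)) ((k : ℤ) - |x|)).card = 2 * (k - x.natAbs) + 1 := by
    intro x hx
    rw [Finset.mem_Icc] at hx
    rw [Int.card_Icc]
    have : |x| = (x.natAbs : ℤ) := Int.abs_eq_natAbs x
    omega
  rw [Finset.sum_congr rfl h1]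
  clear h1
  induction k with
  | zero => simp
  | succ k ih =>
    have hI : Finset.Icc (-((k + 1 : ℕ) : ℤ)) ((k + 1 : ℕ) : ℤ)
        = insert (-((k + 1 : ℕ) : ℤ)) (insert ((k + 1 : ℕ) : ℤ) (Finset.Icc (-(k : ℤ)) k)) := by
      ext x
      simp only [Finset.mem_Icc, Finset.mem_insert]
      omega
    rw [hI, Finset.sum_insert, Finset.sum_insert]
    · have h2 : ∑ x ∈ Finset.Icc (-(k : ℤ)) k, (2 * (k + 1 - x.natAbs) + 1)
          = ∑ x ∈ Finset.Icc (-(k : ℤ)) k, (2 * (k - x.natAbs) + 1)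
            + ∑ x ∈ Finset.Icc (-(k : ℤ)) k, 2 := by
        rw [← Finset.sum_add_distrib]
        apply Finset.sum_congr rfl
        intro x hx
        rw [Finset.mem_Icc] at hx
        omega
      rw [h2, ih, Finset.sum_const, Int.card_Icc]
      have e1 : ((-((k + 1 : ℕ) : ℤ)).natAbs) = k + 1 := by omega
      have e2 : (((k + 1 : ℕ) : ℤ).natAbs) = k + 1 := by omega
      rw [e1, e2]
      have e3 : ((k : ℤ) + 1 - -(k : ℤ)).toNat = 2 * k + 1 := by omega
      rw [e3]
      simp only [smul_eq_mul]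
      ring_nf
      omega
    · simp only [Finset.mem_Icc]; omega
    · simp only [Finset.mem_Icc, Finset.mem_insert]; omega

/-- An independent pair forces `n ≥ 2k² + 2k + 1`. -/
lemma card_ge_of_pair {n k : ℕ} (hn : 1 ≤ n) {A : Finset (ZMod n)} (hA : A.card = 2)
    (hi : IsIndep (2 * k) A) : 2 * k ^ 2 + 2 * k + 1 ≤ n := by
  classical
  haveI : NeZero n := ⟨by omega⟩
  obtain ⟨a, b, hab, rfl⟩ := Finset.card_eq_two.1 hA
  rw [← card_diamond k]
  conv_rhs => rw [← ZMod.card n, ← Finset.card_univ]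
  apply Finset.card_le_card_of_injOn (fun p : (Σ _ : ℤ, ℤ) => (p.1 : ZMod n) * a + (p.2 : ZMod n) * b)
  · intro _ _; exact Finset.mem_coe.2 (Finset.mem_univ _)
  · rintro ⟨x, y⟩ h1 ⟨x', y'⟩ h2 h
    simp only [Finset.coe_sigma, Set.mem_sigma_iff, Finset.mem_coe, Finset.mem_Icc] at h1 h2
    simp only at h
    have key := hi (fun c => if c = a then x - x' else if c = b then y - y' else 0)
      (by
        rw [Finset.sum_pair hab]
        rw [if_pos rfl, if_neg (Ne.symm hab), if_pos rfl]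
        have e1 : |x - x'| ≤ |x| + |x'| := abs_sub _ _
        have e2 : |y - y'| ≤ |y| + |y'| := abs_sub _ _
        have e3 : |y| ≤ k - |x| := abs_le.2 ⟨by linarith [h1.2.1], h1.2.2⟩
        have e4 : |y'| ≤ k - |x'| := abs_le.2 ⟨by linarith [h2.2.1], h2.2.2⟩
        push_cast
        linarith)
      (by
        rw [Finset.sum_pair hab]
        rw [if_pos rfl, if_neg (Ne.symm hab), if_pos rfl]
        simp only [zsmul_eq_mul]
        push_cast
        linear_combination h)
    have ka := key a (by simp)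
    have kb := key b (by simp)
    rw [if_pos rfl] at ka
    rw [if_neg (Ne.symm hab), if_pos rfl] at kb
    have : x = x' := by linarith
    have : y = y' := by linarith
    subst_vars
    rfl

end Pool.Agent.TInd
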