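import Pool.Agent.TInd.Defs

set_option autoImplicit false

namespace Pool.Agent.TInd

open MeasureTheory

/-- The sublattice `38 ∣ x + 11 y + 7 z` has no nonzero point with `|x| + |y| + |z| ≤ 5`. -/
lemma check38 : ∀ x ∈ Finset.Icc (-5 : ℤ) 5, ∀ y ∈ Finset.Icc (-5 : ℤ) 5,
    ∀ z ∈ Finset.Icc (-5 : ℤ) 5, |x| + |y| + |z| ≤ 5 → (x + 11 * y + 7 * z) % 38 = 0 →
      x = 0 ∧ y = 0 ∧ z = 0 := by
  decide +kernel

/-- Minkowski's critical lattice of the octahedron. -/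
noncomputable def T0 : Matrix (Fin 3) (Fin 3) ℝ :=
  !![-2 / 6, 1 / 6, 3 / 6; 3 / 6, -2 / 6, 1 / 6; 1 / 6, 3 / 6, -2 / 6]

lemma T0_det : T0.det = 19 / 108 := by
  simp [T0, Matrix.det_fin_three]
  norm_num

lemma T0_adm : Admissible T0 := by
  intro z hz
  set v0 : ℤ := -2 * z 0 + z 1 + 3 * z 2 with h0
  set v1 : ℤ := 3 * z 0 - 2 * z 1 + z 2 with h1
  set v2 : ℤ := z 0 + 3 * z 1 - 2 * z 2 with h2
  have hsum : ∑ i, |∑ j, T0 i j * (z j : ℝ)| = ((|v0| + |v1| + |v2| : ℤ) : ℝ) / 6 := by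
    simp only [Fin.sum_univ_three, T0]
    simp only [Matrix.of_apply, Matrix.cons_val', Matrix.cons_val_zero, Matrix.cons_val_one,
      Matrix.cons_val, Matrix.cons_val_fin_one]
    push_cast
    rw [show (-2 / 6 * (z 0 : ℝ) + 1 / 6 * (z 1 : ℝ) + 3 / 6 * (z 2 : ℝ)) = (v0 : ℝ) / 6 by
        rw [h0]; push_cast; ring,
      show (3 / 6 * (z 0 : ℝ) + -2 / 6 * (z 1 : ℝ) + 1 / 6 * (z 2 : ℝ)) = (v1 : ℝ) / 6 by
        rw [h1]; push_cast; ring,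
      show (1 / 6 * (z 0 : ℝ) + 3 / 6 * (z 1 : ℝ) + -2 / 6 * (z 2 : ℝ)) = (v2 : ℝ) / 6 by
        rw [h2]; push_cast; ring]
    rw [abs_div, abs_div, abs_div, abs_of_pos (show (0 : ℝ) < 6 by norm_num)]
    ring
  rw [hsum]
  have h6 : 6 ≤ |v0| + |v1| + |v2| := by
    by_contra hlt
    push Not at hlt
    have a0 := abs_nonneg v0
    have a1 := abs_nonneg v1
    have a2 := abs_nonneg v2
    have b0 : |v0| ≤ 5 := by omega
    have b1 : |v1| ≤ 5 := by omega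
    have b2 : |v2| ≤ 5 := by omega
    have c0 := abs_le.1 b0
    have c1 := abs_le.1 b1
    have c2 := abs_le.1 b2
    have := check38 v0 (Finset.mem_Icc.2 ⟨c0.1, c0.2⟩) v1 (Finset.mem_Icc.2 ⟨c1.1, c1.2⟩)
      v2 (Finset.mem_Icc.2 ⟨c2.1, c2.2⟩) (by omega) (by
        have : v0 + 11 * v1 + 7 * v2 = 38 * z 0 := by rw [h0, h1, h2]; ring
        rw [this]; simp)
    obtain ⟨e0, e1, e2⟩ := this
    apply hz
    funext i
    fin_cases i <;> simp only [Pi.zero_apply] <;> simp <;> omega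
  have h6' : (6 : ℝ) ≤ ((|v0| + |v1| + |v2| : ℤ) : ℝ) := by exact_mod_cast h6
  linarith

lemma crit_bdd : BddBelow {d : ℝ | ∃ T, Admissible T ∧ d = |T.det|} :=
  ⟨0, by rintro d ⟨T, -, rfl⟩; exact abs_nonneg _⟩

lemma crit_le : crit ≤ 19 / 108 := by
  refine csInf_le crit_bdd ⟨T0, T0_adm, ?_⟩
  rw [T0_det]; norm_num

end Pool.Agent.TInd
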