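import Pool.Agent.TInd.Crit

set_option autoImplicit false

namespace Pool.Agent.TInd

open MeasureTheory Module

lemma vol_oct : volume {x : Fin 3 → ℝ | ∑ i, |x i| < 1} = ENNReal.ofReal (4 / 3) := by
  have h := MeasureTheory.volume_sum_rpow_lt_one (Fin 3) (p := 1) le_rfl
  simp only [Real.rpow_one, Fintype.card_fin] at h
  rw [h]
  congr 1
  rw [show (1 / 1 + 1 : ℝ) = ((1 : ℕ) : ℝ) + 1 by norm_num, Real.Gamma_nat_eq_factorial,
    show (((3 : ℕ) : ℝ) / 1 + 1 : ℝ) = ((3 : ℕ) : ℝ) + 1 by norm_num, Real.Gamma_nat_eq_factorial]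
  norm_num [Nat.factorial]

lemma convex_oct (T : Matrix (Fin 3) (Fin 3) ℝ) :
    Convex ℝ {x : Fin 3 → ℝ | ∑ i, |∑ j, T i j * x j| < 1} := by
  intro x hx y hy a b ha hb hab
  simp only [Set.mem_ofPred_eq] at hx hy ⊢
  calc ∑ i, |∑ j, T i j * (a • x + b • y) j|
      = ∑ i, |a * (∑ j, T i j * x j) + b * (∑ j, T i j * y j)| := by
        apply Finset.sum_congr rfl
        intro i _
        congr 1
        rw [Finset.mul_sum, Finset.mul_sum, ← Finset.sum_add_distrib]
        apply Finset.sum_congr rfl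
        intro j _
        simp only [Pi.add_apply, Pi.smul_apply, smul_eq_mul]
        ring
    _ ≤ ∑ i, (a * |∑ j, T i j * x j| + b * |∑ j, T i j * y j|) := by
        apply Finset.sum_le_sum
        intro i _
        calc _ ≤ |a * (∑ j, T i j * x j)| + |b * (∑ j, T i j * y j)| := abs_add_le _ _
          _ = _ := by rw [abs_mul, abs_mul, abs_of_nonneg ha, abs_of_nonneg hb]
    _ = a * ∑ i, |∑ j, T i j * x j| + b * ∑ i, |∑ j, T i j * y j| := by
        rw [Finset.sum_add_distrib, Finset.mul_sum, Finset.mul_sum]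
    _ < 1 := by
        rcases eq_or_lt_of_le ha with h0 | h0
        · rw [← h0] at hab ⊢
          have : b = 1 := by linarith
          rw [this]; linarith
        · nlinarith

/-- The volume bound for admissible lattices. -/
lemma sixth_le {T : Matrix (Fin 3) (Fin 3) ℝ} (hdet : T.det ≠ 0) (hT : Admissible T) :
    1 / 6 ≤ |T.det| := by
  classical
  by_contra hlt
  push Not at hlt
  have hpos : 0 < |T.det| := abs_pos.2 hdet
  set s : Set (Fin 3 → ℝ) := {x : Fin 3 → ℝ | ∑ i, |∑ j, T i j * x j| < 1} with hs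
  have hs' : s = (Matrix.toLin' T) ⁻¹' {x : Fin 3 → ℝ | ∑ i, |x i| < 1} := by
    ext x
    simp [hs, Matrix.mulVec, dotProduct]
  have hvol : volume s = ENNReal.ofReal (|(T.det)⁻¹| * (4 / 3)) := by
    rw [hs', Measure.addHaar_preimage_linearMap _ (by rwa [LinearMap.det_toLin']), vol_oct,
      LinearMap.det_toLin', ENNReal.ofReal_mul (abs_nonneg _)]
  set b := Pi.basisFun ℝ (Fin 3) with hb
  have hF : volume (ZSpan.fundamentalDomain b) = 1 := by
    rw [ZSpan.volume_fundamentalDomain]
    have : (Matrix.of b) = (1 : Matrix (Fin 3) (Fin 3) ℝ) := by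
      ext i j
      simp only [hb, Matrix.of_apply, Pi.basisFun_apply, Matrix.one_apply, Pi.single_apply]
      by_cases h : i = j
      · simp [h]
      · simp [h, Ne.symm h]
    rw [this]; simp
  have hlt8 : volume (ZSpan.fundamentalDomain b) * 2 ^ finrank ℝ (Fin 3 → ℝ) < volume s := by
    rw [hF, hvol, finrank_fin_fun, one_mul]
    have e8 : (2 : ENNReal) ^ 3 = ENNReal.ofReal 8 := by
      rw [show (8 : ℝ) = 2 ^ 3 by norm_num, ENNReal.ofReal_pow (by norm_num)]
      simp
    rw [e8]
    apply (ENNReal.ofReal_lt_ofReal_iff (by positivity)).2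
    rw [abs_inv]
    have h2 : 6 < |T.det|⁻¹ := by
      rw [lt_inv_comm₀ (by norm_num) hpos]
      linarith
    linarith
  have hc : Countable (Submodule.span ℤ (Set.range b)).toAddSubgroup :=
    inferInstanceAs (Countable (Submodule.span ℤ (Set.range b)))
  obtain ⟨x, hx0, hx⟩ := exists_ne_zero_mem_lattice_of_measure_mul_two_pow_lt_measure
    (ZSpan.isAddFundamentalDomain' b volume) (s := s)
    (by
      intro x hx
      simp only [hs, Set.mem_ofPred_eq, Pi.neg_apply, mul_neg, Finset.sum_neg_distrib,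
        abs_neg] at hx ⊢
      exact hx) (convex_oct T) hlt8
  have hxm : (x : Fin 3 → ℝ) ∈ Submodule.span ℤ (Set.range b) := x.2
  rw [Basis.mem_span_iff_repr_mem] at hxm
  choose z hz using hxm
  have hxz : ∀ j, (x : Fin 3 → ℝ) j = (z j : ℝ) := by
    intro j
    have := hz j
    simp only [hb, Pi.basisFun_repr] at this
    rw [← this]
    simp
  have hz0 : z ≠ 0 := by
    intro h0
    apply hx0
    ext j
    rw [hxz j, h0]; simp
  have h1 := hT z hz0
  simp only [hs, Set.mem_ofPred_eq] at hx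
  simp only [hxz] at hx
  linarith

end Pool.Agent.TInd
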