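import Mathlib

set_option autoImplicit false

namespace Pool.Agent.TInd

/-- `A` is `t`-independent: the only integer coefficients `l` with `∑ |l a| ≤ t` and
`∑ l a • a = 0` (sums over `a ∈ A`) are all `0` on `A`. -/
def IsIndep {G : Type} [AddCommGroup G] (t : ℕ) (A : Finset G) : Prop :=
  ∀ l : G → ℤ, (∑ a ∈ A, |l a|) ≤ (t : ℤ) → ∑ a ∈ A, l a • a = 0 → ∀ a ∈ A, l a = 0

/-- `tau n t`: the largest size of a `t`-independent subset of `ℤ/n`. -/
noncomputable def tau (n t : ℕ) : ℕ :=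
  sSup {m : ℕ | ∃ A : Finset (ZMod n), A.card = m ∧ IsIndep t A}

/-- `N t`: the set of all `n ≥ 1` with `tau n t = 2`. -/
def N (t : ℕ) : Set ℕ := {n : ℕ | 1 ≤ n ∧ tau n t = 2}

/-- The image of `ℤ³` under `T` has no nonzero point in the open octahedron
`|x| + |y| + |z| < 1`. -/
def Admissible (T : Matrix (Fin 3) (Fin 3) ℝ) : Prop :=
  ∀ z : Fin 3 → ℤ, z ≠ 0 → 1 ≤ ∑ i, |∑ j, T i j * (z j : ℝ)|

/-- The critical determinant of the octahedron `|x| + |y| + |z| < 1`. -/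
noncomputable def crit : ℝ := sInf {d : ℝ | ∃ T, Admissible T ∧ d = |T.det|}

end Pool.Agent.TInd
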